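import Pool.Agent.ARPoset.Defs

/-!
# Modules over the incidence algebra attached to convex subsets

For a convex subset `C` of a finite poset `R`, `CM K C` is the right module over the incidence
algebra `A = IncidenceAlgebra K R` with one copy of `K` at each point of `C`; its elements are the
row vectors supported on `C`.  For `C = {x | a ≤ x}` this is the projective `e_a A`, for
`C = {x | x ≤ a}` the injective hull of the simple module `C = {a}`.
-/

open CategoryTheory

set_option linter.unusedSectionVars false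

namespace Pool.Agent.ARPoset

universe u

/-- A convex subset of a poset. -/
structure Cvx (R : Type) [PartialOrder R] where
  carrier : Set R
  conv : ∀ ⦃a b c⦄, a ≤ b → b ≤ c → a ∈ carrier → c ∈ carrier → b ∈ carrier

instance (R : Type) [PartialOrder R] : Membership R (Cvx R) := ⟨fun C x => x ∈ C.carrier⟩

section

variable (K : Type u) [Field K] {R : Type} [PartialOrder R] [Fintype R] [LocallyFiniteOrder R]
  [DecidableEq R]

/-- Row vectors supported on `C`. -/
def CMsub (C : Cvx R) : AddSubgroup (R → K) where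
  carrier := {v | ∀ x, x ∉ C → v x = 0}
  zero_mem' := fun _ _ => rfl
  add_mem' := by
    intro a b ha hb x hx
    simp [ha x hx, hb x hx]
  neg_mem' := by
    intro a ha x hx
    simp [ha x hx]

/-- The underlying type of the right module `K_C`. -/
def CM (C : Cvx R) : Type u := CMsub K C

noncomputable instance (C : Cvx R) : AddCommGroup (CM K C) :=
  inferInstanceAs (AddCommGroup (CMsub K C))

variable {K}

/-- The value of an element of `K_C` at a point. -/
def CM.ev {C : Cvx R} (v : CM K C) (x : R) : K := v.1 x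

theorem CM.ext {C : Cvx R} {v w : CM K C} (h : ∀ x, v.ev x = w.ev x) : v = w :=
  Subtype.ext (funext h)

theorem CM.ev_of_not_mem {C : Cvx R} (v : CM K C) {x : R} (hx : x ∉ C) : v.ev x = 0 := v.2 x hx

theorem CM.mem_of_ne {C : Cvx R} (v : CM K C) {x : R} (hx : v.ev x ≠ 0) : x ∈ C := by
  by_contra h
  exact hx (v.ev_of_not_mem h)

@[simp] theorem CM.ev_add {C : Cvx R} (v w : CM K C) (x : R) : (v + w).ev x = v.ev x + w.ev x := rfl
@[simp] theorem CM.ev_zero {C : Cvx R} (x : R) : (0 : CM K C).ev x = 0 := rfl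

open Classical in
/-- Make an element of `K_C` from a function, cutting off outside `C`. -/
noncomputable def cut (C : Cvx R) (v : R → K) : CM K C :=
  ⟨fun x => if x ∈ C then v x else 0, by
    intro x hx
    exact if_neg hx⟩

open Classical in
theorem cut_ev (C : Cvx R) (v : R → K) (x : R) : (cut C v).ev x = if x ∈ C then v x else 0 := rfl

theorem cut_ev_mem {C : Cvx R} (v : R → K) {x : R} (hx : x ∈ C) : (cut C v).ev x = v x := if_pos hx

/-- The incidence algebra acts on row vectors from the right. -/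
def rowMul (v : R → K) (f : IncidenceAlgebra K R) (b : R) : K := ∑ c, v c * f c b

omit [LocallyFiniteOrder R] [DecidableEq R] in
theorem rowMul_add (v : R → K) (f g : IncidenceAlgebra K R) (b : R) :
    rowMul v (f + g) b = rowMul v f b + rowMul v g b := by
  simp [rowMul, mul_add, Finset.sum_add_distrib]

omit [LocallyFiniteOrder R] [DecidableEq R] in
theorem add_rowMul (v w : R → K) (f : IncidenceAlgebra K R) (b : R) :
    rowMul (fun x => v x + w x) f b = rowMul v f b + rowMul w f b := by
  simp [rowMul, add_mul, Finset.sum_add_distrib]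

theorem incidence_mul (f g : IncidenceAlgebra K R) (a b : R) :
    (f * g) a b = ∑ c, f a c * g c b := by
  rw [IncidenceAlgebra.mul_apply]
  apply Finset.sum_subset (Finset.subset_univ _)
  intro c _ hc
  rw [Finset.mem_Icc, not_and_or] at hc
  rcases hc with hc | hc
  · rw [IncidenceAlgebra.apply_eq_zero_of_not_le hc, zero_mul]
  · rw [IncidenceAlgebra.apply_eq_zero_of_not_le hc, mul_zero]

noncomputable instance (C : Cvx R) : SMul (IncidenceAlgebra K R)ᵐᵒᵖ (CM K C) :=
  ⟨fun f v => cut C (rowMul v.ev f.unop)⟩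

open Classical in
theorem smul_ev {C : Cvx R} (f : (IncidenceAlgebra K R)ᵐᵒᵖ) (v : CM K C) (b : R) :
    (f • v).ev b = if b ∈ C then ∑ c, v.ev c * f.unop c b else 0 := rfl

theorem smul_ev_mem {C : Cvx R} (f : (IncidenceAlgebra K R)ᵐᵒᵖ) (v : CM K C) {b : R} (hb : b ∈ C) :
    (f • v).ev b = ∑ c, v.ev c * f.unop c b := if_pos hb

noncomputable instance (C : Cvx R) : Module (IncidenceAlgebra K R)ᵐᵒᵖ (CM K C) where
  one_smul v := by
    apply CM.ext
    intro b
    by_cases hb : b ∈ C
    · rw [smul_ev_mem _ _ hb]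
      simp [IncidenceAlgebra.one_apply]
    · rw [CM.ev_of_not_mem _ hb, CM.ev_of_not_mem _ hb]
  mul_smul x y v := by
    apply CM.ext
    intro b
    by_cases hb : b ∈ C
    · rw [smul_ev_mem _ _ hb, smul_ev_mem _ _ hb]
      have h1 : ∀ c, (y • v).ev c * x.unop c b = ∑ a, v.ev a * (y.unop a c * x.unop c b) := by
        intro c
        by_cases hc : c ∈ C
        · rw [smul_ev_mem _ _ hc, Finset.sum_mul]
          exact Finset.sum_congr rfl fun a _ => by ring
        · rw [CM.ev_of_not_mem _ hc, zero_mul]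
          symm
          apply Finset.sum_eq_zero
          intro a _
          by_cases ha : a ∈ C
          · by_cases h1 : a ≤ c
            · by_cases h2 : c ≤ b
              · exact absurd (C.conv h1 h2 ha hb) hc
              · rw [IncidenceAlgebra.apply_eq_zero_of_not_le h2, mul_zero, mul_zero]
            · rw [IncidenceAlgebra.apply_eq_zero_of_not_le h1, zero_mul, mul_zero]
          · rw [CM.ev_of_not_mem _ ha, zero_mul]
      rw [Finset.sum_congr rfl fun c _ => h1 c, Finset.sum_comm]
      refine Finset.sum_congr rfl fun a _ => ?_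
      rw [← Finset.mul_sum, MulOpposite.unop_mul, incidence_mul]
    · rw [CM.ev_of_not_mem _ hb, CM.ev_of_not_mem _ hb]
  smul_zero x := by
    apply CM.ext
    intro b
    by_cases hb : b ∈ C
    · rw [smul_ev_mem _ _ hb]
      simp
    · rw [CM.ev_of_not_mem _ hb, CM.ev_of_not_mem _ hb]
  smul_add x v w := by
    apply CM.ext
    intro b
    by_cases hb : b ∈ C
    · rw [CM.ev_add, smul_ev_mem _ _ hb, smul_ev_mem _ _ hb, smul_ev_mem _ _ hb]
      simp [add_mul, Finset.sum_add_distrib]
    · rw [CM.ev_of_not_mem _ hb, CM.ev_of_not_mem _ hb]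
  add_smul x y v := by
    apply CM.ext
    intro b
    by_cases hb : b ∈ C
    · rw [CM.ev_add, smul_ev_mem _ _ hb, smul_ev_mem _ _ hb, smul_ev_mem _ _ hb]
      simp [mul_add, Finset.sum_add_distrib]
    · rw [CM.ev_of_not_mem _ hb, CM.ev_of_not_mem _ hb]
  zero_smul v := by
    apply CM.ext
    intro b
    by_cases hb : b ∈ C
    · rw [smul_ev_mem _ _ hb]
      simp
    · rw [CM.ev_of_not_mem _ hb, CM.ev_of_not_mem _ hb]

variable (K)

/-- The right module `K_C`. -/
noncomputable abbrev cm (C : Cvx R) : ModuleCat.{u} (IncidenceAlgebra K R)ᵐᵒᵖ :=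
  ModuleCat.of _ (CM K C)

/-- The canonical map `K_C → K_D`, defined when `C ∩ D` is closed downwards in `C` and upwards
in `D`. -/
noncomputable def can (C D : Cvx R)
    (h1 : ∀ a b, a ≤ b → a ∈ C → b ∈ C → b ∈ D → a ∈ D)
    (h2 : ∀ a b, a ≤ b → a ∈ C → a ∈ D → b ∈ D → b ∈ C) :
    CM K C →ₗ[(IncidenceAlgebra K R)ᵐᵒᵖ] CM K D where
  toFun v := cut D v.ev
  map_add' v w := by
    apply CM.ext
    intro b
    by_cases hb : b ∈ D
    · rw [CM.ev_add, cut_ev_mem _ hb, cut_ev_mem _ hb, cut_ev_mem _ hb, CM.ev_add]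
    · rw [CM.ev_of_not_mem _ hb, CM.ev_of_not_mem _ hb]
  map_smul' f v := by
    apply CM.ext
    intro b
    by_cases hb : b ∈ D
    · rw [cut_ev_mem _ hb, RingHom.id_apply, smul_ev_mem _ _ hb]
      by_cases hbC : b ∈ C
      · rw [smul_ev_mem _ _ hbC]
        refine Finset.sum_congr rfl fun c _ => ?_
        by_cases hc : c ∈ D
        · rw [cut_ev_mem _ hc]
        · rw [CM.ev_of_not_mem _ hc, zero_mul]
          by_cases hcC : c ∈ C
          · by_cases hcb : c ≤ b
            · exact absurd (h1 c b hcb hcC hbC hb) hc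
            · rw [IncidenceAlgebra.apply_eq_zero_of_not_le hcb, mul_zero]
          · rw [CM.ev_of_not_mem _ hcC, zero_mul]
      · rw [CM.ev_of_not_mem _ hbC]
        symm
        apply Finset.sum_eq_zero
        intro c _
        by_cases hc : c ∈ D
        · rw [cut_ev_mem _ hc]
          by_cases hcC : c ∈ C
          · by_cases hcb : c ≤ b
            · exact absurd (h2 c b hcb hcC hc hb) hbC
            · rw [IncidenceAlgebra.apply_eq_zero_of_not_le hcb, mul_zero]
          · rw [CM.ev_of_not_mem _ hcC, zero_mul]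
        · rw [CM.ev_of_not_mem _ hc, zero_mul]
    · rw [CM.ev_of_not_mem _ hb, CM.ev_of_not_mem _ hb]

variable {K}

theorem can_ev_mem {C D : Cvx R} {h1 h2} (v : CM K C) {x : R} (hx : x ∈ D) :
    (can K C D h1 h2 v).ev x = v.ev x := cut_ev_mem _ hx

end

section ShortExact

variable (K : Type u) [Field K] {R : Type} [PartialOrder R] [Fintype R] [LocallyFiniteOrder R]
  [DecidableEq R]

/-- `F` is closed upwards in `C`, and `D = C \ F`. -/
structure Cuts (F C D : Cvx R) : Prop where
  sub : ∀ x, x ∈ F → x ∈ C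
  up : ∀ a b, a ≤ b → a ∈ F → b ∈ C → b ∈ F
  compl : ∀ x, x ∈ D ↔ x ∈ C ∧ x ∉ F

variable {F C D : Cvx R}

/-- The inclusion `K_F → K_C`. -/
noncomputable def Cuts.incl (h : Cuts F C D) :
    CM K F →ₗ[(IncidenceAlgebra K R)ᵐᵒᵖ] CM K C :=
  can K F C (fun a _ _ ha _ _ => h.sub a ha) (fun a b hab ha _ hb => h.up a b hab ha hb)

/-- The projection `K_C → K_D`. -/
noncomputable def Cuts.proj (h : Cuts F C D) :
    CM K C →ₗ[(IncidenceAlgebra K R)ᵐᵒᵖ] CM K D :=
  can K C D (fun a b hab ha _ hb => (h.compl a).2 ⟨ha, fun ha' =>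
    ((h.compl b).1 hb).2 (h.up a b hab ha' ((h.compl b).1 hb).1)⟩)
    (fun _ b _ _ _ hb => ((h.compl b).1 hb).1)

/-- The short complex `K_F → K_C → K_D`. -/
noncomputable def Cuts.sc (h : Cuts F C D) :
    ShortComplex (ModuleCat.{u} (IncidenceAlgebra K R)ᵐᵒᵖ) :=
  ShortComplex.mk (X₁ := cm K F) (X₂ := cm K C) (X₃ := cm K D)
    (ModuleCat.ofHom (h.incl K)) (ModuleCat.ofHom (h.proj K)) (by
      ext v
      apply CM.ext
      intro x
      by_cases hx : x ∈ D
      · change ((h.proj K) (h.incl K v)).ev x = 0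
        rw [Cuts.proj, can_ev_mem _ hx, Cuts.incl, can_ev_mem _ ((h.compl x).1 hx).1,
          CM.ev_of_not_mem _ ((h.compl x).1 hx).2]
      · rw [CM.ev_of_not_mem _ hx, CM.ev_of_not_mem _ hx])

theorem Cuts.shortExact (h : Cuts F C D) : (h.sc K).ShortExact := by
  have hinj : Function.Injective (h.incl K) := by
    intro v w hvw
    apply CM.ext
    intro x
    by_cases hx : x ∈ F
    · have := congrArg (fun u => CM.ev u x) hvw
      simp only [Cuts.incl] at this
      rwa [can_ev_mem _ (h.sub x hx), can_ev_mem _ (h.sub x hx)] at this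
    · rw [CM.ev_of_not_mem _ hx, CM.ev_of_not_mem _ hx]
  have hsurj : Function.Surjective (h.proj K) := by
    intro v
    refine ⟨cut C v.ev, ?_⟩
    apply CM.ext
    intro x
    by_cases hx : x ∈ D
    · rw [Cuts.proj, can_ev_mem _ hx, cut_ev_mem _ ((h.compl x).1 hx).1]
    · rw [CM.ev_of_not_mem _ hx, CM.ev_of_not_mem _ hx]
  have hex : ∀ v : CM K C, h.proj K v = 0 → ∃ w : CM K F, h.incl K w = v := by
    intro v hv
    refine ⟨cut F v.ev, ?_⟩
    apply CM.ext
    intro x
    by_cases hx : x ∈ C
    · rw [Cuts.incl, can_ev_mem _ hx]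
      by_cases hF : x ∈ F
      · rw [cut_ev_mem _ hF]
      · rw [CM.ev_of_not_mem _ hF]
        have hD : x ∈ D := (h.compl x).2 ⟨hx, hF⟩
        have := congrArg (fun u => CM.ev u x) hv
        simp only [Cuts.proj] at this
        rw [can_ev_mem _ hD] at this
        rw [this]
        rfl
    · rw [CM.ev_of_not_mem _ hx, CM.ev_of_not_mem _ hx]
  refine { exact := ?_, mono_f := ?_, epi_g := ?_ }
  · rw [ShortComplex.moduleCat_exact_iff]
    exact fun v hv => hex v hv
  · exact (ModuleCat.mono_iff_injective _).2 hinj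
  · exact (ModuleCat.epi_iff_surjective _).2 hsurj

end ShortExact

end Pool.Agent.ARPoset
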