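import Pool.Agent.ARPoset.Poset24

/-!
# The Coxeter matrix of the 24-element poset
-/

namespace Pool.Agent.ARPoset

/-- `i ↦ i` is a linear extension. -/
def ext24 : Fin 24 ≃ P24 where
  toFun i := ⟨i⟩
  invFun x := x.val
  left_inv _ := rfl
  right_inv _ := rfl

theorem ext24_isLinearExtension : IsLinearExtension ext24 := by
  unfold IsLinearExtension
  decide +kernel

/-- The matrix of the order relation. -/
def omR : Matrix P24 P24 ℝ := Matrix.of fun x y => if y ≤ x then 1 else 0

/-- The inverse of the matrix of the order relation. -/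
def mobR : Matrix P24 P24 ℝ := Matrix.of fun x y => (mob x y : ℝ)

theorem omR_apply (x y : P24) : omR x y = (om x y : ℝ) := by
  rw [omR, om, Matrix.of_apply]
  split_ifs <;> simp

theorem omR_mul_mobR : omR * mobR = 1 := by
  ext x z
  rw [Matrix.mul_apply, Matrix.one_apply]
  have h := congrArg (fun k : ℤ => (k : ℝ)) (om_mul_mob x z)
  push_cast at h
  rw [← h]
  exact Finset.sum_congr rfl fun y _ => by rw [omR_apply]; rfl

theorem coxeter_eq {n : ℕ} (x : Fin n ≃ P24) (i j : Fin n) :
    coxeter x i j = -((∑ y, om y (x i) * mob y (x j) : ℤ) : ℝ) := by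
  have h1 : cartan x = omR.submatrix x x := rfl
  have h2 : (cartan x)⁻¹ = mobR.submatrix x x := by
    apply Matrix.inv_eq_right_inv
    rw [h1, Matrix.submatrix_mul_equiv, omR_mul_mobR, Matrix.submatrix_one_equiv]
  rw [coxeter, h2, h1, Matrix.transpose_submatrix, Matrix.submatrix_mul_equiv, Matrix.neg_apply,
    Matrix.submatrix_apply, Matrix.mul_apply]
  push_cast
  congr 1
  exact Finset.sum_congr rfl fun y _ => by rw [Matrix.transpose_apply, omR_apply]; rfl

theorem coxeter_isPermMulUpper {n : ℕ} (x : Fin n ≃ P24) (hx : IsLinearExtension x) :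
    IsPermMulUpper (coxeter x) := by
  let σ : Equiv.Perm (Fin n) := (x.trans rho).trans x.symm
  have hσ : ∀ i, x (σ i) = rho (x i) := fun i => x.apply_symm_apply _
  refine ⟨σ, (coxeter x).submatrix σ.symm id, ?_, ?_⟩
  · intro i j hij
    change j < i at hij
    rw [Matrix.submatrix_apply, id]
    by_contra hne
    rw [coxeter_eq] at hne
    have h1 : ∑ y, om y (x (σ.symm i)) * mob y (x j) ≠ 0 := by
      intro h
      rw [h] at hne
      simp at hne
    have h2 := cox_support _ _ h1
    rw [← hσ, Equiv.apply_symm_apply] at h2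
    rcases h2.eq_or_lt with h3 | h3
    · exact absurd (x.injective h3) (ne_of_gt hij)
    · exact absurd (hx _ _ h3) (not_lt_of_gt hij)
  · ext i j
    rw [Equiv.Perm.permMatrix, PEquiv.toMatrix_toPEquiv_mul, Matrix.submatrix_apply,
      Matrix.submatrix_apply, Equiv.symm_apply_apply]
    rfl

end Pool.Agent.ARPoset
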