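import Mathlib

/-!
# Auslander regular algebras and the Coxeter matrix of a finite poset

The definitions used in the statement of the Coxeter matrix test.
-/

open CategoryTheory

namespace Pool.Agent.ARPoset

universe u

/-- The algebra `A` as a right module over itself.  (Right `A`-modules are modules over the
opposite ring `Aᵐᵒᵖ`.) -/
noncomputable abbrev regular (A : Type u) [Ring A] : ModuleCat.{u} Aᵐᵒᵖ := ModuleCat.of Aᵐᵒᵖ A

/-- An injective coresolution `0 → M → I⁰ → I¹ → ⋯` is minimal if for each `n` the kernel of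
`Iⁿ → Iⁿ⁺¹` (the image of `Iⁿ⁻¹ → Iⁿ`, or of `M → I⁰` for `n = 0`) is an essential submodule of
`Iⁿ`. -/
def IsMinimal {A : Type u} [Ring A] {M : ModuleCat.{u} Aᵐᵒᵖ} (I : InjectiveResolution M) : Prop :=
  ∀ (n : ℕ) (N : Submodule Aᵐᵒᵖ (I.cocomplex.X n)),
    N ⊓ LinearMap.ker (I.cocomplex.d n (n + 1)).hom = ⊥ → N = ⊥

/-- The ring `A` is Auslander regular: the terms of the minimal injective coresolution
`0 → A → I⁰ → I¹ → ⋯` of the right regular module satisfy `pdim Iⁱ ≤ i` for all `i`, the injective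
dimension of `A` is finite, and `A` has finite global dimension. -/
structure IsAuslanderRegular (A : Type u) [Ring A] : Prop where
  pdim_le : ∃ I : InjectiveResolution (regular A),
    IsMinimal I ∧ ∀ i : ℕ, HasProjectiveDimensionLE (I.cocomplex.X i) i
  idim_finite : ∃ d : ℕ, HasInjectiveDimensionLE (regular A) d
  gldim_finite : ∃ d : ℕ, ∀ M : ModuleCat.{u} Aᵐᵒᵖ, Module.Finite Aᵐᵒᵖ M →
    HasProjectiveDimensionLE M d

/-- In every injective coresolution `0 → A → I⁰ → I¹ → ⋯` of the right regular module, minimal or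
not, the inequality `pdim Iⁱ ≤ i` fails. -/
def FailsInDegree (A : Type u) [Ring A] (i : ℕ) : Prop :=
  ∀ I : InjectiveResolution (regular A), ¬ HasProjectiveDimensionLE (I.cocomplex.X i) i

section Coxeter

variable {R : Type} [PartialOrder R] [DecidableLE R] {n : ℕ}

/-- `x₀, …, xₙ₋₁` is a linear extension of `R`: if `x i < x j`, then `i < j`. -/
def IsLinearExtension (x : Fin n ≃ R) : Prop := ∀ i j, x i < x j → i < j

/-- The Cartan matrix `ω = (e_{ij})`, with `e_{ij} = 1` if `x j ≤ x i` and `0` otherwise. -/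
def cartan (x : Fin n ≃ R) : Matrix (Fin n) (Fin n) ℝ :=
  Matrix.of fun i j => if x j ≤ x i then 1 else 0

/-- The Coxeter matrix `C = - ωᵀ ω⁻¹`. -/
noncomputable def coxeter (x : Fin n ≃ R) : Matrix (Fin n) (Fin n) ℝ :=
  -((cartan x).transpose * (cartan x)⁻¹)

/-- `C` has a Bruhat decomposition `C = U₁ P U₂` with `U₁ = 1`: it is the product of a permutation
matrix and an upper triangular matrix. -/
def IsPermMulUpper (C : Matrix (Fin n) (Fin n) ℝ) : Prop :=
  ∃ (σ : Equiv.Perm (Fin n)) (U : Matrix (Fin n) (Fin n) ℝ),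
    U.BlockTriangular id ∧ C = σ.permMatrix ℝ * U

end Coxeter

end Pool.Agent.ARPoset
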