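import Pool.Agent.ARPoset.Inj

/-!
# Vanishing and nonvanishing of `Ext`, and the obstruction to Auslander regularity
-/

open CategoryTheory Abelian

namespace Pool.Agent.ARPoset

universe w v u

section

variable {C : Type u} [Category.{v} C] [Abelian C] [HasExt.{w} C]

/-- `Ext^n(X, Y) = 0`. -/
def VZ (X Y : C) (n : ℕ) : Prop := ∀ e : Ext X Y n, e = 0

/-- `Ext^n(X, Y) ≠ 0`. -/
def NZ (X Y : C) (n : ℕ) : Prop := ∃ e : Ext X Y n, e ≠ 0

theorem vz_zero {X Y : C} (h : ∀ f : X ⟶ Y, f = 0) : VZ X Y 0 := by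
  intro e
  obtain ⟨f, rfl⟩ := (Ext.mk₀_bijective X Y).2 e
  rw [h f, Ext.mk₀_zero]

theorem nz_zero {X Y : C} (f : X ⟶ Y) (hf : f ≠ 0) : NZ X Y 0 := by
  refine ⟨Ext.mk₀ f, fun h => hf ?_⟩
  apply (Ext.mk₀_bijective X Y).1
  rw [h, Ext.mk₀_zero]

theorem vz_of_projective (X Y : C) [Projective X] (n : ℕ) : VZ X Y (n + 1) :=
  fun e => e.eq_zero_of_projective

variable {S : ShortComplex C} (hS : S.ShortExact) {Y : C} {n : ℕ}
include hS

theorem nz_right (h1 : NZ S.X₁ Y n) (h2 : VZ S.X₂ Y n) : NZ S.X₃ Y (n + 1) := by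
  obtain ⟨x, hx⟩ := h1
  refine ⟨hS.extClass.comp x (add_comm 1 n), fun h => hx ?_⟩
  obtain ⟨y, rfl⟩ := Ext.contravariant_sequence_exact₁ hS Y x (add_comm 1 n) h
  rw [h2 y, Ext.comp_zero]

theorem nz_middle (h3 : NZ S.X₃ Y (n + 1)) (h1 : VZ S.X₁ Y n) : NZ S.X₂ Y (n + 1) := by
  obtain ⟨x, hx⟩ := h3
  refine ⟨(Ext.mk₀ S.g).comp x (zero_add (n + 1)), fun h => hx ?_⟩
  obtain ⟨y, rfl⟩ := Ext.contravariant_sequence_exact₃ hS Y x h (add_comm 1 n)
  rw [h1 y, Ext.comp_zero]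

theorem vz_middle (h1 : VZ S.X₁ Y n) (h3 : VZ S.X₃ Y n) : VZ S.X₂ Y n := by
  intro x
  obtain ⟨y, rfl⟩ := Ext.contravariant_sequence_exact₂ hS Y x (h1 _)
  rw [h3 y, Ext.comp_zero]

theorem vz_right (h1 : VZ S.X₁ Y n) (h2 : VZ S.X₂ Y (n + 1)) : VZ S.X₃ Y (n + 1) := by
  intro x
  obtain ⟨y, rfl⟩ := Ext.contravariant_sequence_exact₃ hS Y x (h2 _) (add_comm 1 n)
  rw [h1 y, Ext.comp_zero]

end

section

variable {K : Type u} [Field K] {R : Type} [PartialOrder R] [Fintype R] [LocallyFiniteOrder R]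
  [DecidableEq R]

theorem nz_of_retract {C : Type u} [Category.{v} C] [Abelian C] [HasExt.{w} C] {X Y Z : C}
    (r : Retract Y Z) {n : ℕ} (h : NZ X Y n) : NZ X Z n := by
  obtain ⟨e, he⟩ := h
  refine ⟨e.comp (Ext.mk₀ r.i) (add_zero n), fun h0 => he ?_⟩
  have h1 : (e.comp (Ext.mk₀ r.i) (add_zero n)).comp (Ext.mk₀ r.r) (add_zero n) = e := by
    rw [Ext.comp_assoc_of_third_deg_zero, Ext.mk₀_comp_mk₀, r.retract, Ext.comp_mk₀_id]
  rw [← h1, h0, Ext.zero_comp]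

/-- If `Ext^i(S(z), e_x A) ≠ 0` and `Ext^j(I(z), N) ≠ 0` for some `j > i`, then in every injective
coresolution of the right regular module the term in degree `i` has projective dimension
larger than `i`. -/
theorem not_projectiveDimensionLE (z x : R) {i j : ℕ} (hij : i < j)
    (N : ModuleCat.{u} (IncidenceAlgebra K R)ᵐᵒᵖ)
    (h1 : NZ (cm K (ptc z)) (cm K (upc x)) i) (h2 : NZ (cm K (downc z)) N j)
    (I : InjectiveResolution (regular (IncidenceAlgebra K R))) :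
    ¬ HasProjectiveDimensionLE (I.cocomplex.X i) i := by
  intro hpd
  obtain ⟨α, hα⟩ := nz_of_retract (retractRegular x) h1
  obtain ⟨f, hf, rfl⟩ := I.extMk_surjective α (i + 1) rfl
  have hf0 : f ≠ 0 := by
    rintro rfl
    exact hα (I.extMk_zero _ _)
  obtain ⟨r⟩ := retract_of_hom_ne_zero z (I.cocomplex.X i) f hf0
  have h3 : HasProjectiveDimensionLT (cm K (downc z)) (i + 1) :=
    r.hasProjectiveDimensionLT (i + 1)
  obtain ⟨e, he⟩ := h2
  exact he (e.eq_zero_of_hasProjectiveDimensionLT (i + 1) hij)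

end

/-! ### The same lemmas for the modules `K_C` -/

section

variable (K : Type u) [Field K] {R : Type} [PartialOrder R] [Fintype R] [LocallyFiniteOrder R]
  [DecidableEq R] {F C D N : Cvx R} {n : ℕ}

/-- `Ext^n(K_C, K_N) = 0`. -/
def V (C N : Cvx R) (n : ℕ) : Prop := VZ (cm K C) (cm K N) n

/-- `Ext^n(K_C, K_N) ≠ 0`. -/
def Z (C N : Cvx R) (n : ℕ) : Prop := NZ (cm K C) (cm K N) n

theorem Cuts.z_right (h : Cuts F C D) (h1 : Z K F N n) (h2 : V K C N n) : Z K D N (n + 1) :=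
  nz_right (h.shortExact K) h1 h2

theorem Cuts.z_middle (h : Cuts F C D) (h3 : Z K D N (n + 1)) (h1 : V K F N n) :
    Z K C N (n + 1) :=
  nz_middle (h.shortExact K) h3 h1

theorem Cuts.v_middle (h : Cuts F C D) (h1 : V K F N n) (h3 : V K D N n) : V K C N n :=
  vz_middle (h.shortExact K) h1 h3

theorem Cuts.v_right (h : Cuts F C D) (h1 : V K F N n) (h2 : V K C N (n + 1)) :
    V K D N (n + 1) :=
  vz_right (h.shortExact K) h1 h2

theorem v_up (a : R) (N : Cvx R) (n : ℕ) : V K (upc a) N (n + 1) := vz_of_projective _ _ n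

theorem v_zero (h : ∀ x, x ∈ C → ∃ c, c ∈ C ∧ c ≤ x ∧ c ∉ N) : V K C N 0 := by
  apply vz_zero
  intro f
  ext v
  have := hom_eq_zero h f.hom
  change f.hom v = 0
  rw [this]
  rfl

theorem z_zero (h1 : ∀ a b, a ≤ b → a ∈ C → b ∈ C → b ∈ N → a ∈ N)
    (h2 : ∀ a b, a ≤ b → a ∈ C → a ∈ N → b ∈ N → b ∈ C) {x : R} (hC : x ∈ C) (hD : x ∈ N) :
    Z K C N 0 := by
  apply nz_zero (ModuleCat.ofHom (can K C N h1 h2))
  intro h
  apply can_ne_zero (K := K) h1 h2 hC hD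
  have := congrArg ModuleCat.Hom.hom h
  exact this

end

end Pool.Agent.ARPoset
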