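import Pool.Agent.ARPoset.ProjInj

/-!
# Injectivity of the modules `K_{≤ z}`
-/

open CategoryTheory

set_option linter.unusedSectionVars false

namespace Pool.Agent.ARPoset

universe u

variable {K : Type u} [Field K] {R : Type} [PartialOrder R] [Fintype R] [LocallyFiniteOrder R]
  [DecidableEq R]

/-- Scalars act on right modules through the centre. -/
noncomputable def scal : K →+* (IncidenceAlgebra K R)ᵐᵒᵖ :=
  algebraMap K (IncidenceAlgebra K R)ᵐᵒᵖ

theorem unop_scal (k : K) (a b : R) :
    (scal k : (IncidenceAlgebra K R)ᵐᵒᵖ).unop a b = if a = b then k else 0 := by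
  have : (scal k : (IncidenceAlgebra K R)ᵐᵒᵖ).unop = k • (1 : IncidenceAlgebra K R) := rfl
  rw [this]
  simp [IncidenceAlgebra.constSMul_apply]

theorem scal_smul_ev {C : Cvx R} (k : K) (v : CM K C) (x : R) :
    ((scal k : (IncidenceAlgebra K R)ᵐᵒᵖ) • v).ev x = k * v.ev x := by
  by_cases hx : x ∈ C
  · rw [smul_ev_mem _ _ hx, Finset.sum_eq_single x]
    · rw [unop_scal, if_pos rfl, mul_comm]
    · intro c _ hc
      rw [unop_scal, if_neg hc, mul_zero]
    · intro h
      exact absurd (Finset.mem_univ _) h
  · rw [CM.ev_of_not_mem _ hx, CM.ev_of_not_mem _ hx, mul_zero]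

/-- The map `Y → K_{≤ z}` attached to a `K`-linear functional on `Y`. -/
noncomputable def toDown (z : R) {Y : Type u} [AddCommGroup Y] [Module (IncidenceAlgebra K R)ᵐᵒᵖ Y]
    (ψ : Y →+ K) (hψ : ∀ (k : K) (y : Y), ψ ((scal k : (IncidenceAlgebra K R)ᵐᵒᵖ) • y) = k * ψ y) :
    Y →ₗ[(IncidenceAlgebra K R)ᵐᵒᵖ] CM K (downc z) where
  toFun y := cut (downc z) fun b => ψ (MulOpposite.op (E b z : IncidenceAlgebra K R) • y)
  map_add' y y' := by
    apply CM.ext
    intro b
    by_cases hb : b ∈ downc z
    · rw [CM.ev_add, cut_ev_mem _ hb, cut_ev_mem _ hb, cut_ev_mem _ hb, smul_add, map_add]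
    · rw [CM.ev_of_not_mem _ hb, CM.ev_of_not_mem _ hb]
  map_smul' f y := by
    apply CM.ext
    intro b
    rw [RingHom.id_apply]
    by_cases hb : b ∈ downc z
    · rw [cut_ev_mem _ hb, smul_ev_mem _ _ hb, smul_smul]
      have h1 : MulOpposite.op (E b z : IncidenceAlgebra K R) * f =
          ∑ a, (scal (f.unop a b) : (IncidenceAlgebra K R)ᵐᵒᵖ) *
            MulOpposite.op (E a z : IncidenceAlgebra K R) := by
        apply MulOpposite.unop_injective
        rw [MulOpposite.unop_mul, MulOpposite.unop_op, Finset.unop_sum]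
        apply DFunLike.coe_injective
        funext x y
        rw [incidence_mul]
        have h2 : ∀ g : R → IncidenceAlgebra K R, (∑ a, g a) x y = ∑ a, g a x y := by
          intro g
          have h3 : ∀ s : Finset R, (∑ a ∈ s, g a) x y = ∑ a ∈ s, g a x y := by
            intro s
            induction s using Finset.induction_on with
            | empty => simp
            | insert a s ha ih =>
              rw [Finset.sum_insert ha, Finset.sum_insert ha, IncidenceAlgebra.add_apply, ih]
          exact h3 _
        rw [h2]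
        have h4 : ∀ a, (MulOpposite.unop ((scal (f.unop a b) : (IncidenceAlgebra K R)ᵐᵒᵖ) *
            MulOpposite.op (E a z : IncidenceAlgebra K R))) x y =
            (E a z : IncidenceAlgebra K R) x y * f.unop a b := by
          intro a
          rw [MulOpposite.unop_mul, MulOpposite.unop_op, incidence_mul, Finset.sum_eq_single y]
          · rw [unop_scal, if_pos rfl]
          · intro c _ hc
            rw [unop_scal, if_neg hc, mul_zero]
          · intro h
            exact absurd (Finset.mem_univ _) h
        rw [Finset.sum_congr rfl fun a _ => h4 a]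
        by_cases hy : y = z
        · subst hy
          rw [Finset.sum_eq_single b, Finset.sum_eq_single x]
          · rw [E_apply, E_apply, if_pos ⟨rfl, rfl, hb⟩, mul_one]
            by_cases hx : x ≤ b
            · rw [if_pos ⟨rfl, rfl, hx.trans hb⟩, one_mul]
            · rw [IncidenceAlgebra.apply_eq_zero_of_not_le hx, mul_zero]
          · intro c _ hc
            rw [E_apply, if_neg (fun h => hc h.1.symm), zero_mul]
          · intro h
            exact absurd (Finset.mem_univ _) h
          · intro c _ hc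
            rw [E_apply, if_neg (fun h => hc h.1), mul_zero]
          · intro h
            exact absurd (Finset.mem_univ _) h
        · rw [Finset.sum_eq_zero, Finset.sum_eq_zero]
          · intro c _
            rw [E_apply, if_neg (fun h => hy h.2.1), zero_mul]
          · intro c _
            rw [E_apply, if_neg (fun h => hy h.2.1), mul_zero]
      rw [h1, Finset.sum_smul, map_sum]
      refine Finset.sum_congr rfl fun a _ => ?_
      rw [mul_smul, hψ]
      by_cases ha : a ∈ downc z
      · rw [cut_ev_mem _ ha, mul_comm]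
      · rw [CM.ev_of_not_mem _ ha, zero_mul,
          IncidenceAlgebra.apply_eq_zero_of_not_le (fun h => ha (le_trans h hb)), zero_mul]
    · rw [CM.ev_of_not_mem _ hb, CM.ev_of_not_mem _ hb]

/-- The module `K_{≤ z}` is injective. -/
instance downc_injective (z : R) : Injective (cm K (downc z)) where
  factors := by
    intro X Y g f hf
    have hinj : Function.Injective f.hom := (ModuleCat.mono_iff_injective f).1 hf
    let _ : Module K X := Module.compHom X (scal : K →+* (IncidenceAlgebra K R)ᵐᵒᵖ)
    let _ : Module K Y := Module.compHom Y (scal : K →+* (IncidenceAlgebra K R)ᵐᵒᵖ)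
    let f' : X →ₗ[K] Y :=
      { toFun := f.hom
        map_add' := map_add f.hom
        map_smul' := fun k x => map_smul f.hom (scal k : (IncidenceAlgebra K R)ᵐᵒᵖ) x }
    obtain ⟨r, hr⟩ := LinearMap.exists_leftInverse_of_injective f' (LinearMap.ker_eq_bot.2 hinj)
    have hr' : ∀ x, r (f.hom x) = x := fun x => LinearMap.congr_fun hr x
    let ψ : Y →+ K :=
      { toFun := fun y => CM.ev (g.hom (r y) : CM K (downc z)) z
        map_zero' := by rw [map_zero, map_zero]; rfl
        map_add' := fun y y' => by rw [map_add, map_add]; rfl }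
    have hψ : ∀ (k : K) (y : Y), ψ ((scal k : (IncidenceAlgebra K R)ᵐᵒᵖ) • y) = k * ψ y := by
      intro k y
      have h1 : r ((scal k : (IncidenceAlgebra K R)ᵐᵒᵖ) • y) =
          (scal k : (IncidenceAlgebra K R)ᵐᵒᵖ) • r y := map_smul r k y
      change CM.ev (g.hom (r ((scal k : (IncidenceAlgebra K R)ᵐᵒᵖ) • y)) : CM K (downc z)) z =
        k * CM.ev (g.hom (r y) : CM K (downc z)) z
      rw [h1, map_smul]
      exact scal_smul_ev k _ z
    refine ⟨ModuleCat.ofHom (toDown z ψ hψ), ?_⟩
    ext x
    change toDown z ψ hψ (f.hom x) = g.hom x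
    apply CM.ext
    intro b
    by_cases hb : b ∈ downc z
    · change (cut (downc z) _).ev b = _
      rw [cut_ev_mem _ hb]
      change CM.ev (g.hom (r (MulOpposite.op (E b z : IncidenceAlgebra K R) • f.hom x)) :
        CM K (downc z)) z = _
      rw [← map_smul, hr', map_smul]
      exact smul_E_ev_self _ hb (le_refl z)
    · rw [CM.ev_of_not_mem _ hb, CM.ev_of_not_mem _ hb]

/-- The inclusion of the simple module at `z` in its injective hull `K_{≤ z}`. -/
noncomputable def soc (z : R) :
    CM K (ptc z) →ₗ[(IncidenceAlgebra K R)ᵐᵒᵖ] CM K (downc z) :=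
  can K (ptc z) (downc z)
    (fun _ _ _ ha _ _ => mem_downc.2 (le_of_eq (mem_ptc.1 ha)))
    (fun _ _ hab ha _ hb => mem_ptc.2 (le_antisymm (mem_downc.1 hb) ((mem_ptc.1 ha) ▸ hab)))

theorem soc_ev (z : R) (v : CM K (ptc z)) {x : R} (hx : x ∈ downc z) : (soc z v).ev x = v.ev x :=
  cut_ev_mem _ hx

theorem smul_eq_soc (z : R) (v : CM K (downc z)) {x : R} (hx : x ≤ z) :
    MulOpposite.op (E x z : IncidenceAlgebra K R) • v =
      soc z (cut (ptc z) fun _ => v.ev x) := by
  apply CM.ext
  intro y
  rw [smul_E_ev _ hx]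
  by_cases hy : y ∈ downc z
  · rw [soc_ev _ _ hy]
    by_cases hyz : y = z
    · rw [if_pos ⟨hy, hyz⟩, cut_ev_mem _ (mem_ptc.2 hyz)]
    · rw [if_neg (fun h => hyz h.2), CM.ev_of_not_mem _ hyz]
  · rw [if_neg (fun h => hy h.1), CM.ev_of_not_mem _ hy]

/-- A nonzero homomorphism from the simple module at `z` to an injective module makes the
injective hull `K_{≤ z}` a retract of it. -/
theorem retract_of_hom_ne_zero (z : R) (I : ModuleCat.{u} (IncidenceAlgebra K R)ᵐᵒᵖ) [Injective I]
    (φ : cm K (ptc z) ⟶ I) (hφ : φ ≠ 0) : Nonempty (Retract (cm K (downc z)) I) := by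
  have hmono : Mono (ModuleCat.ofHom (soc z) : cm K (ptc z) ⟶ cm K (downc z)) := by
    rw [ModuleCat.mono_iff_injective]
    intro v w hvw
    apply CM.ext
    intro x
    by_cases hx : x ∈ ptc z
    · have := congrArg (fun u => CM.ev u x) (show soc z v = soc z w from hvw)
      have hx' : x ∈ downc z := mem_downc.2 (le_of_eq (mem_ptc.1 hx))
      change (soc z v).ev x = (soc z w).ev x at this
      rwa [soc_ev _ _ hx', soc_ev _ _ hx'] at this
    · rw [CM.ev_of_not_mem _ hx, CM.ev_of_not_mem _ hx]
  let g : cm K (downc z) ⟶ I := Injective.factorThru φ (ModuleCat.ofHom (soc z))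
  have hg : ∀ v, g.hom (soc z v) = φ.hom v := by
    intro v
    have h1 : (ModuleCat.ofHom (soc z) : cm K (ptc z) ⟶ cm K (downc z)) ≫ g = φ :=
      Injective.comp_factorThru φ _
    have h2 := congrArg (fun h => ModuleCat.Hom.hom h v) h1
    exact h2
  have hmono2 : Mono g := by
    rw [ModuleCat.mono_iff_injective, injective_iff_map_eq_zero]
    intro v hv
    by_contra hne
    have : ∃ x, CM.ev (v : CM K (downc z)) x ≠ 0 := by
      by_contra hall
      push Not at hall
      exact hne (CM.ext hall)
    obtain ⟨x, hx⟩ := this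
    have hxz : x ≤ z := CM.mem_of_ne _ hx
    have h1 : φ.hom (cut (ptc z) fun _ => CM.ev (v : CM K (downc z)) x) = 0 := by
      rw [← hg, ← smul_eq_soc z v hxz, map_smul, hv, smul_zero]
    apply hφ
    ext w
    change φ.hom w = 0
    have h2 : w = (scal (CM.ev w z / CM.ev (v : CM K (downc z)) x) :
        (IncidenceAlgebra K R)ᵐᵒᵖ) • (cut (ptc z) fun _ => CM.ev (v : CM K (downc z)) x) := by
      apply CM.ext
      intro y
      rw [scal_smul_ev]
      by_cases hy : y ∈ ptc z
      · rw [cut_ev_mem _ hy, mem_ptc.1 hy, div_mul_cancel₀ _ hx]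
      · rw [CM.ev_of_not_mem _ hy, CM.ev_of_not_mem _ hy, mul_zero]
    rw [h2, map_smul, h1, smul_zero]
  exact ⟨{ i := g, r := Injective.factorThru (𝟙 _) g, retract := Injective.comp_factorThru _ _ }⟩

end Pool.Agent.ARPoset
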