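import Pool.Agent.ARPoset.Poset24
import Pool.Agent.ARPoset.ExtLemmas

/-!
# The incidence algebra of the 24-element poset is not Auslander regular

With `S(z)` the simple module at `z`, `I(z)` its injective hull and `P(z) = e_z A`, we show that
`Ext²(S(6), P(12)) ≠ 0` and `Ext³(I(6), S(15)) ≠ 0`.  The first statement says that `I(6)` is a
summand of the second term of the minimal injective coresolution of `A`, the second one that
`pdim I(6) ≥ 3`.
-/

open CategoryTheory

namespace Pool.Agent.ARPoset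

universe u

/-- A convex subset given by a bit mask. -/
def msk (m : ℕ) (h : ∀ a b c : P24, a ≤ b → b ≤ c → m.testBit a.val = true →
    m.testBit c.val = true → m.testBit b.val = true) : Cvx P24 where
  carrier := {x | m.testBit x.val = true}
  conv := h

instance (m : ℕ) (h) (x : P24) : Decidable (x ∈ msk m h) :=
  inferInstanceAs (Decidable (m.testBit x.val = true))

instance (a x : P24) : Decidable (x ∈ upc a) := inferInstanceAs (Decidable (a ≤ x))

instance (a x : P24) : Decidable (x ∈ downc a) := inferInstanceAs (Decidable (x ≤ a))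

instance (a x : P24) : Decidable (x ∈ ptc a) := inferInstanceAs (Decidable (x = a))

/-- `{x | 6 < x}`. -/
abbrev gt6 : Cvx P24 := msk 0xffe000 (by decide +kernel)
/-- `{x | 15 < x}`. -/
abbrev gt15 : Cvx P24 := msk 0xec0000 (by decide +kernel)
/-- `{x | 6 < x}` without `15`. -/
abbrev gt6' : Cvx P24 := msk 0xff6000 (by decide +kernel)
/-- `{x | ¬ x ≤ 6}`. -/
abbrev nle6 : Cvx P24 := msk 0xffff80 (by decide +kernel)
/-- `{x | ¬ x ≤ 6}` without `8`. -/
abbrev nle6' : Cvx P24 := msk 0xfffe80 (by decide +kernel)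
/-- `{x | 8 < x}`. -/
abbrev gt8 : Cvx P24 := msk 0xffbc00 (by decide +kernel)
/-- `{x | 8 < x}` without `11`. -/
abbrev gt8' : Cvx P24 := msk 0xffb400 (by decide +kernel)
/-- `{x | 11 < x}`. -/
abbrev gt11 : Cvx P24 := msk 0xfd9000 (by decide +kernel)
/-- `{x | 7 ≤ x} ∩ {x | 9 ≤ x}`. -/
abbrev up79 : Cvx P24 := msk 0xff5000 (by decide +kernel)
/-- `{9, 13}`. -/
abbrev set913 : Cvx P24 := msk 0x2200 (by decide +kernel)

theorem cuts_A1 : Cuts gt15 (upc ⟨15⟩) (ptc ⟨15⟩) :=
  ⟨by decide +kernel, by decide +kernel, by decide +kernel⟩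
theorem cuts_A2 : Cuts gt6' gt6 (ptc ⟨15⟩) :=
  ⟨by decide +kernel, by decide +kernel, by decide +kernel⟩
theorem cuts_A3 : Cuts gt6 (upc ⟨6⟩) (ptc ⟨6⟩) :=
  ⟨by decide +kernel, by decide +kernel, by decide +kernel⟩

theorem cuts_B1 : Cuts gt11 (upc ⟨11⟩) (ptc ⟨11⟩) :=
  ⟨by decide +kernel, by decide +kernel, by decide +kernel⟩
theorem cuts_B2 : Cuts gt8' gt8 (ptc ⟨11⟩) :=
  ⟨by decide +kernel, by decide +kernel, by decide +kernel⟩
theorem cuts_B3 : Cuts gt8 (upc ⟨8⟩) (ptc ⟨8⟩) :=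
  ⟨by decide +kernel, by decide +kernel, by decide +kernel⟩
theorem cuts_B4 : Cuts nle6' nle6 (ptc ⟨8⟩) :=
  ⟨by decide +kernel, by decide +kernel, by decide +kernel⟩
theorem cuts_B5 : Cuts nle6 (upc ⟨0⟩) (downc ⟨6⟩) :=
  ⟨by decide +kernel, by decide +kernel, by decide +kernel⟩
theorem cuts_B6 : Cuts up79 (upc ⟨9⟩) set913 :=
  ⟨by decide +kernel, by decide +kernel, by decide +kernel⟩
theorem cuts_B7 : Cuts (upc ⟨7⟩) nle6' set913 :=
  ⟨by decide +kernel, by decide +kernel, by decide +kernel⟩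

variable (K : Type u) [Field K]

/-- `Ext²(S(6), P(12)) ≠ 0`. -/
theorem ext_two : Z K (ptc (⟨6⟩ : P24)) (upc ⟨12⟩) 2 := by
  have h0 : Z K gt15 (upc ⟨12⟩) 0 :=
    z_zero K (x := ⟨23⟩) (by decide +kernel) (by decide +kernel) (by decide +kernel)
      (by decide +kernel)
  have h1 : Z K (ptc (⟨15⟩ : P24)) (upc ⟨12⟩) 1 :=
    cuts_A1.z_right K h0 (v_zero K (by decide +kernel))
  have h2 : Z K gt6 (upc ⟨12⟩) 1 := cuts_A2.z_middle K h1 (v_zero K (by decide +kernel))
  exact cuts_A3.z_right K h2 (v_up K _ _ 0)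

/-- `Ext³(I(6), S(15)) ≠ 0`. -/
theorem ext_three : Z K (downc (⟨6⟩ : P24)) (ptc ⟨15⟩) 3 := by
  have h0 : Z K gt11 (ptc (⟨15⟩ : P24)) 0 :=
    z_zero K (x := ⟨15⟩) (by decide +kernel) (by decide +kernel) (by decide +kernel)
      (by decide +kernel)
  have h1 : Z K (ptc (⟨11⟩ : P24)) (ptc ⟨15⟩) 1 :=
    cuts_B1.z_right K h0 (v_zero K (by decide +kernel))
  have h2 : Z K gt8 (ptc (⟨15⟩ : P24)) 1 := cuts_B2.z_middle K h1 (v_zero K (by decide +kernel))
  have h3 : Z K (ptc (⟨8⟩ : P24)) (ptc ⟨15⟩) 2 := cuts_B3.z_right K h2 (v_up K _ _ 0)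
  have h4 : V K set913 (ptc (⟨15⟩ : P24)) 1 :=
    cuts_B6.v_right K (v_zero K (by decide +kernel)) (v_up K _ _ 0)
  have h5 : V K nle6' (ptc (⟨15⟩ : P24)) 1 := cuts_B7.v_middle K (v_up K _ _ 0) h4
  have h6 : Z K nle6 (ptc (⟨15⟩ : P24)) 2 := cuts_B4.z_middle K h3 h5
  exact cuts_B5.z_right K h6 (v_up K _ _ 1)

/-- In every injective coresolution of the right regular module over the incidence algebra of the
24-element poset, the term in degree two has projective dimension larger than two. -/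
theorem failsInDegree_two : FailsInDegree (IncidenceAlgebra K P24) 2 :=
  not_projectiveDimensionLE _ _ (by norm_num : 2 < 3) _ (ext_two K) (ext_three K)

theorem not_isAuslanderRegular : ¬ IsAuslanderRegular (IncidenceAlgebra K P24) := by
  intro h
  obtain ⟨I, _, hI⟩ := h.pdim_le
  exact failsInDegree_two K I (hI 2)

end Pool.Agent.ARPoset
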