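import Pool.Agent.ARPoset.Defs

/-!
# A bounded poset with 24 elements

The elements are `0, …, 23`.  With the names
`⊥ = 0`, `a = 1, b = 2, p = 3, c = 4, d = 5, t = 6`, `a' = 7, b' = 8, p' = 9, c' = 10, d' = 11,
t' = 12`, `a'' = 13, b'' = 14, p'' = 15, c'' = 16, d'' = 17`, `a''' = 18, b''' = 19, p''' = 20,
c''' = 21, d''' = 22`, `⊤ = 23` the covering relations are

* `⊥ < a, b, p`; `a, b < c, d`; `p, c, d < t`;
* `b, p < a'`; `a, p < b'`; `c, d < p'`; `d, a', b' < c'`; `c, a', b' < d'`; `p', c', d' < t'`;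
* `t, b', p' < a''`; `t, a', p' < b''`; `t, c', d' < p''`; `d', a'', b'' < c''`;
  `c', a'', b'' < d''`;
* `t', b'', p'' < a'''`; `t', a'', p'' < b'''`; `t', c'', d'' < p'''`; `d'', a''', b''' < c'''`;
  `c'', a''', b''' < d'''`; `p''', c''', d''' < ⊤`.

So `x'` lies above those of the elements constructed before it which are not `≥ x`.
-/

namespace Pool.Agent.ARPoset

/-- The underlying set of the poset. -/
structure P24 where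
  val : Fin 24
deriving DecidableEq, Fintype

/-- The principal lower sets of the poset as bit masks: bit `i` of `lowerMask j` is set if and only
if `i ≤ j`. -/
def lowerMask : Fin 24 → ℕ :=
  ![1, 3, 5, 9, 23, 39, 127, 141, 267, 567, 1455, 2463, 8127, 9087, 17151, 36351, 93183, 157695,
    319487, 573439, 1277951, 3080191, 5111807, 16777215]

instance : LE P24 := ⟨fun x y => (lowerMask y.val).testBit x.val = true⟩

instance : DecidableLE P24 := fun x y =>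
  inferInstanceAs (Decidable ((lowerMask y.val).testBit x.val = true))

theorem P24.le_refl' : ∀ x : P24, x ≤ x := by decide +kernel

theorem P24.le_trans' : ∀ x y z : P24, x ≤ y → y ≤ z → x ≤ z := by decide +kernel

theorem P24.le_antisymm' : ∀ x y : P24, x ≤ y → y ≤ x → x = y := by decide +kernel

instance : PartialOrder P24 where
  le_refl := P24.le_refl'
  le_trans := P24.le_trans'
  le_antisymm := P24.le_antisymm'

instance : BoundedOrder P24 where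
  top := ⟨23⟩
  le_top := by decide +kernel
  bot := ⟨0⟩
  bot_le := by decide +kernel

instance : DecidableLT P24 := decidableLTOfDecidableLE

instance : LocallyFiniteOrder P24 := Fintype.toLocallyFiniteOrder

theorem card_P24 : Fintype.card P24 = 24 := by decide +kernel

/-- The inverse of the matrix of the order relation (the Möbius function). -/
def mobTable : Fin 24 → Fin 24 → ℤ := ![
  ![1, 0, 0, 0, 0, 0, 0, 0, 0, 0, 0, 0, 0, 0, 0, 0, 0, 0, 0, 0, 0, 0, 0, 0],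
  ![-1, 1, 0, 0, 0, 0, 0, 0, 0, 0, 0, 0, 0, 0, 0, 0, 0, 0, 0, 0, 0, 0, 0, 0],
  ![-1, 0, 1, 0, 0, 0, 0, 0, 0, 0, 0, 0, 0, 0, 0, 0, 0, 0, 0, 0, 0, 0, 0, 0],
  ![-1, 0, 0, 1, 0, 0, 0, 0, 0, 0, 0, 0, 0, 0, 0, 0, 0, 0, 0, 0, 0, 0, 0, 0],
  ![1, -1, -1, 0, 1, 0, 0, 0, 0, 0, 0, 0, 0, 0, 0, 0, 0, 0, 0, 0, 0, 0, 0, 0],
  ![1, -1, -1, 0, 0, 1, 0, 0, 0, 0, 0, 0, 0, 0, 0, 0, 0, 0, 0, 0, 0, 0, 0, 0],
  ![0, 1, 1, -1, -1, -1, 1, 0, 0, 0, 0, 0, 0, 0, 0, 0, 0, 0, 0, 0, 0, 0, 0, 0],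
  ![1, 0, -1, -1, 0, 0, 0, 1, 0, 0, 0, 0, 0, 0, 0, 0, 0, 0, 0, 0, 0, 0, 0, 0],
  ![1, -1, 0, -1, 0, 0, 0, 0, 1, 0, 0, 0, 0, 0, 0, 0, 0, 0, 0, 0, 0, 0, 0, 0],
  ![-1, 1, 1, 0, -1, -1, 0, 0, 0, 1, 0, 0, 0, 0, 0, 0, 0, 0, 0, 0, 0, 0, 0, 0],
  ![-1, 1, 1, 1, 0, -1, 0, -1, -1, 0, 1, 0, 0, 0, 0, 0, 0, 0, 0, 0, 0, 0, 0, 0],
  ![-1, 1, 1, 1, -1, 0, 0, -1, -1, 0, 0, 1, 0, 0, 0, 0, 0, 0, 0, 0, 0, 0, 0, 0],
  ![1, -1, -1, -1, 1, 1, 0, 1, 1, -1, -1, -1, 1, 0, 0, 0, 0, 0, 0, 0, 0, 0, 0, 0],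
  ![0, 0, -1, 1, 1, 1, -1, 0, -1, -1, 0, 0, 0, 1, 0, 0, 0, 0, 0, 0, 0, 0, 0, 0],
  ![0, -1, 0, 1, 1, 1, -1, -1, 0, -1, 0, 0, 0, 0, 1, 0, 0, 0, 0, 0, 0, 0, 0, 0],
  ![0, -1, -1, 0, 1, 1, -1, 1, 1, 0, -1, -1, 0, 0, 0, 1, 0, 0, 0, 0, 0, 0, 0, 0],
  ![0, 0, 0, -1, 0, -1, 1, 1, 1, 1, 0, -1, 0, -1, -1, 0, 1, 0, 0, 0, 0, 0, 0, 0],
  ![0, 0, 0, -1, -1, 0, 1, 1, 1, 1, -1, 0, 0, -1, -1, 0, 0, 1, 0, 0, 0, 0, 0, 0],
  ![0, 1, 0, 0, -1, -1, 1, 0, -1, 1, 1, 1, -1, 0, -1, -1, 0, 0, 1, 0, 0, 0, 0, 0],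
  ![0, 0, 1, 0, -1, -1, 1, -1, 0, 1, 1, 1, -1, -1, 0, -1, 0, 0, 0, 1, 0, 0, 0, 0],
  ![0, 0, 0, 1, 0, 0, -1, -1, -1, 0, 1, 1, -1, 1, 1, 0, -1, -1, 0, 0, 1, 0, 0, 0],
  ![0, 0, 0, 0, 1, 0, -1, 0, 0, -1, 0, -1, 1, 1, 1, 1, 0, -1, -1, -1, 0, 1, 0, 0],
  ![0, 0, 0, 0, 0, 1, -1, 0, 0, -1, -1, 0, 1, 1, 1, 1, -1, 0, -1, -1, 0, 0, 1, 0],
  ![0, 0, 0, 0, 0, 0, 1, 0, 0, 0, 0, 0, 0, -1, -1, -1, 1, 1, 1, 1, -1, -1, -1, 1]]

/-- The permutation `ρ` such that row `x` of the Coxeter matrix is supported on the elements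
above `ρ x`. -/
def rhoTable : Fin 24 → Fin 24 :=
  ![23, 7, 8, 9, 10, 11, 12, 13, 14, 15, 16, 17, 0, 18, 19, 20, 21, 22, 1, 2, 3, 4, 5, 6]

/-- The inverse of the permutation `ρ`. -/
def rhoInvTable : Fin 24 → Fin 24 :=
  ![12, 18, 19, 20, 21, 22, 23, 1, 2, 3, 4, 5, 6, 7, 8, 9, 10, 11, 13, 14, 15, 16, 17, 0]

/-- The permutation `ρ`. -/
def rho : Equiv.Perm P24 where
  toFun x := ⟨rhoTable x.val⟩
  invFun x := ⟨rhoInvTable x.val⟩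
  left_inv := by decide +kernel
  right_inv := by decide +kernel

/-- The matrix of the order relation, with integral entries. -/
def om (x y : P24) : ℤ := if y ≤ x then 1 else 0

/-- The inverse matrix. -/
def mob (x y : P24) : ℤ := mobTable x.val y.val

theorem om_mul_mob : ∀ x z : P24, ∑ y, om x y * mob y z = if x = z then 1 else 0 := by
  decide +kernel

theorem cox_support : ∀ x z : P24, ∑ y, om y x * mob y z ≠ 0 → rho x ≤ z := by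
  decide +kernel

end Pool.Agent.ARPoset
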