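import Pool.Agent.ARPoset.Conv

/-!
# Projectivity, injectivity and vanishing of homomorphisms for the modules `K_C`
-/

open CategoryTheory

set_option linter.unusedSectionVars false

namespace Pool.Agent.ARPoset

universe u

/-- The set `{x | a ≤ x}`. -/
def upc {R : Type} [PartialOrder R] (a : R) : Cvx R where
  carrier := {x | a ≤ x}
  conv := fun _ _ _ hxy _ hx _ => le_trans hx hxy

/-- The set `{x | x ≤ a}`. -/
def downc {R : Type} [PartialOrder R] (a : R) : Cvx R where
  carrier := {x | x ≤ a}
  conv := fun _ _ _ _ hyz _ hz => le_trans hyz hz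

/-- The set `{a}`. -/
def ptc {R : Type} [PartialOrder R] (a : R) : Cvx R where
  carrier := {x | x = a}
  conv := fun _ _ _ hxy hyz hx hz => le_antisymm (hyz.trans (le_of_eq hz)) ((le_of_eq hx.symm).trans hxy)

variable {K : Type u} [Field K] {R : Type} [PartialOrder R] [Fintype R] [LocallyFiniteOrder R]
  [DecidableEq R]

theorem mem_upc {a x : R} : x ∈ upc a ↔ a ≤ x := Iff.rfl
theorem mem_downc {a x : R} : x ∈ downc a ↔ x ≤ a := Iff.rfl
theorem mem_ptc {a x : R} : x ∈ ptc a ↔ x = a := Iff.rfl

/-! ### Matrix units -/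

open Classical in
/-- The basis element `[a, b]` of the incidence algebra (zero unless `a ≤ b`). -/
noncomputable def E (a b : R) : IncidenceAlgebra K R where
  toFun x y := if x = a ∧ y = b ∧ a ≤ b then 1 else 0
  eq_zero_of_not_le' x y h := by
    apply if_neg
    rintro ⟨rfl, rfl, h'⟩
    exact h h'

open Classical in
theorem E_apply (a b x y : R) :
    (E a b : IncidenceAlgebra K R) x y = if x = a ∧ y = b ∧ a ≤ b then 1 else 0 := rfl

open Classical in
theorem smul_E_ev {C : Cvx R} (v : CM K C) {a b : R} (hab : a ≤ b) (x : R) :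
    (MulOpposite.op (E a b : IncidenceAlgebra K R) • v).ev x =
      if x ∈ C ∧ x = b then v.ev a else 0 := by
  by_cases hx : x ∈ C
  · rw [smul_ev_mem _ _ hx]
    by_cases hxb : x = b
    · rw [if_pos ⟨hx, hxb⟩, Finset.sum_eq_single a]
      · rw [MulOpposite.unop_op, E_apply, if_pos ⟨rfl, hxb, hab⟩, mul_one]
      · intro c _ hc
        rw [MulOpposite.unop_op, E_apply, if_neg (fun h => hc h.1), mul_zero]
      · intro h
        exact absurd (Finset.mem_univ _) h
    · rw [if_neg (fun h => hxb h.2)]
      apply Finset.sum_eq_zero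
      intro c _
      rw [MulOpposite.unop_op, E_apply, if_neg (fun h => hxb h.2.1), mul_zero]
  · rw [CM.ev_of_not_mem _ hx, if_neg (fun h => hx h.1)]

theorem smul_E_ev_self {C : Cvx R} (v : CM K C) {a b : R} (hab : a ≤ b) (hb : b ∈ C) :
    (MulOpposite.op (E a b : IncidenceAlgebra K R) • v).ev b = v.ev a := by
  rw [smul_E_ev v hab, if_pos ⟨hb, rfl⟩]

/-! ### Vanishing of homomorphisms -/

/-- If below each point of `C` there is a point of `C` outside `D`, then there is no nonzero
homomorphism `K_C → K_D`. -/
theorem hom_eq_zero {C D : Cvx R} (h : ∀ x, x ∈ C → ∃ c, c ∈ C ∧ c ≤ x ∧ c ∉ D)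
    (φ : CM K C →ₗ[(IncidenceAlgebra K R)ᵐᵒᵖ] CM K D) : φ = 0 := by
  ext v
  change φ v = 0
  apply CM.ext
  intro b
  rw [CM.ev_zero]
  by_cases hbD : b ∈ D
  swap
  · exact CM.ev_of_not_mem _ hbD
  rw [← smul_E_ev_self (φ v) (le_refl b) hbD, ← map_smul]
  by_cases hbC : b ∈ C
  · obtain ⟨c, hc, hcb, hcD⟩ := h b hbC
    have h1 : (MulOpposite.op (E b b : IncidenceAlgebra K R) • v) =
        MulOpposite.op (E c b : IncidenceAlgebra K R) • cut C (fun _ => v.ev b) := by
      apply CM.ext
      intro x
      rw [smul_E_ev _ (le_refl b), smul_E_ev _ hcb, cut_ev_mem _ hc]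
    rw [h1, map_smul, smul_E_ev_self _ hcb hbD, CM.ev_of_not_mem _ hcD]
  · have h1 : (MulOpposite.op (E b b : IncidenceAlgebra K R) • v) = 0 := by
      apply CM.ext
      intro x
      rw [smul_E_ev _ (le_refl b), CM.ev_zero, CM.ev_of_not_mem v hbC]
      split_ifs <;> rfl
    rw [h1, map_zero, CM.ev_zero]

/-- The canonical map is nonzero if `C` and `D` have a common point. -/
theorem can_ne_zero {C D : Cvx R} (h1) (h2) {x : R} (hC : x ∈ C) (hD : x ∈ D) :
    can K C D h1 h2 ≠ 0 := by
  intro h
  have h3 : (can K C D h1 h2 (cut C fun _ => 1)).ev x = 0 := by rw [h]; rfl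
  rw [can_ev_mem _ hD, cut_ev_mem _ hC] at h3
  exact one_ne_zero h3

/-! ### Projectivity of `K_{≥ a}` -/

open Classical in
/-- The element of the incidence algebra with row `a` equal to `v` and the other rows zero. -/
noncomputable def row (a : R) (v : CM K (upc a)) : IncidenceAlgebra K R where
  toFun x y := if x = a then v.ev y else 0
  eq_zero_of_not_le' x y h := by
    split_ifs with hx
    · subst hx
      exact v.ev_of_not_mem h
    · rfl

open Classical in
theorem row_apply (a : R) (v : CM K (upc a)) (x y : R) :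
    row a v x y = if x = a then v.ev y else 0 := rfl

/-- The inclusion of `K_{≥ a} = e_a A` in `A`. -/
noncomputable def rowIncl (a : R) :
    CM K (upc a) →ₗ[(IncidenceAlgebra K R)ᵐᵒᵖ] IncidenceAlgebra K R where
  toFun v := row a v
  map_add' v w := by
    apply DFunLike.coe_injective
    funext x y
    rw [IncidenceAlgebra.add_apply, row_apply, row_apply, row_apply]
    split_ifs
    · rfl
    · rw [add_zero]
  map_smul' f v := by
    apply DFunLike.coe_injective
    funext x y
    rw [RingHom.id_apply]
    have h1 : (f • row a v : IncidenceAlgebra K R) = row a v * f.unop := rfl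
    rw [h1, incidence_mul]
    by_cases hx : x = a
    · rw [row_apply, if_pos hx]
      by_cases hy : y ∈ upc a
      · rw [smul_ev_mem _ _ hy]
        exact Finset.sum_congr rfl fun c _ => by rw [row_apply, if_pos hx]
      · rw [CM.ev_of_not_mem _ hy]
        symm
        apply Finset.sum_eq_zero
        intro c _
        rw [row_apply, if_pos hx]
        by_cases hc : a ≤ c
        · rw [IncidenceAlgebra.apply_eq_zero_of_not_le (fun h => hy (le_trans hc h)), mul_zero]
        · rw [CM.ev_of_not_mem _ hc, zero_mul]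
    · rw [row_apply, if_neg hx]
      symm
      apply Finset.sum_eq_zero
      intro c _
      rw [row_apply, if_neg hx, zero_mul]

/-- The projection of `A` onto `K_{≥ a} = e_a A`. -/
noncomputable def rowProj (a : R) :
    IncidenceAlgebra K R →ₗ[(IncidenceAlgebra K R)ᵐᵒᵖ] CM K (upc a) where
  toFun f := cut (upc a) (f a)
  map_add' f g := by
    apply CM.ext
    intro x
    by_cases hx : x ∈ upc a
    · rw [CM.ev_add, cut_ev_mem _ hx, cut_ev_mem _ hx, cut_ev_mem _ hx]
      rfl
    · rw [CM.ev_of_not_mem _ hx, CM.ev_of_not_mem _ hx]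
  map_smul' f g := by
    apply CM.ext
    intro x
    rw [RingHom.id_apply]
    have h1 : (f • g : IncidenceAlgebra K R) = g * f.unop := rfl
    by_cases hx : x ∈ upc a
    · rw [cut_ev_mem _ hx, h1, incidence_mul, smul_ev_mem _ _ hx]
      refine Finset.sum_congr rfl fun c _ => ?_
      by_cases hc : c ∈ upc a
      · rw [cut_ev_mem _ hc]
      · rw [CM.ev_of_not_mem _ hc, IncidenceAlgebra.apply_eq_zero_of_not_le hc]
    · rw [CM.ev_of_not_mem _ hx, CM.ev_of_not_mem _ hx]

theorem rowProj_rowIncl (a : R) (v : CM K (upc a)) : rowProj a (rowIncl a v) = v := by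
  apply CM.ext
  intro x
  by_cases hx : x ∈ upc a
  · change (cut (upc a) (row a v a)).ev x = _
    rw [cut_ev_mem _ hx, row_apply, if_pos rfl]
  · rw [CM.ev_of_not_mem _ hx, CM.ev_of_not_mem _ hx]

/-- `K_{≥ a}` is a retract of the right regular module. -/
noncomputable def retractRegular (a : R) :
    Retract (cm K (upc a)) (regular (IncidenceAlgebra K R)) where
  i := ModuleCat.ofHom (rowIncl a)
  r := ModuleCat.ofHom (rowProj a)
  retract := by
    ext v
    exact rowProj_rowIncl a v

instance regular_projective (A : Type u) [Ring A] : Projective (regular A) := by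
  have h : Module.Projective Aᵐᵒᵖ A := by
    let e : A ≃ₗ[Aᵐᵒᵖ] Aᵐᵒᵖ :=
      { toFun := fun a => MulOpposite.op a
        invFun := fun a => a.unop
        map_add' := fun _ _ => rfl
        map_smul' := fun f a => rfl
        left_inv := fun _ => rfl
        right_inv := fun _ => rfl }
    exact Module.Projective.of_equiv e.symm
  exact (IsProjective.iff_projective A).1 h

instance upc_projective (a : R) : Projective (cm K (upc a)) := by
  exact (retractRegular a).projective

end Pool.Agent.ARPoset
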